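import Pool.Agent.Helper20.EX3.Statements
import Pool.Agent.Helper62.EX.TB

/-!
# MP_2857a5_co : module ASMK, the final assembly for trees with many sinks
-/

set_option autoImplicit false

open Finset
open scoped Classical

namespace OT

noncomputable section

/-- Greedy choice of representatives which are pairwise far. -/
theorem asmk_greedy {ι β : Type} (B : β → Finset β)
    (hsymm : ∀ a b, a ∈ B b → b ∈ B a) (K : ℕ) (hB : ∀ b, (B b).card ≤ K) (Z : Finset β)
    (X : ι → Finset β) (h0 : ι → β) (U : Finset ι) :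
    (∀ v ∈ U, K * (Z.card + U.card) < (X v).card) →
    ∃ h : ι → β, (∀ v ∈ U, h v ∈ X v) ∧ (∀ v ∈ U, ∀ z ∈ Z, h v ∉ B z) ∧
      ∀ v ∈ U, ∀ w ∈ U, v ≠ w → h v ∉ B (h w) := by
  induction U using Finset.induction_on with
  | empty =>
    intro _
    exact ⟨h0, by simp, by simp, by simp⟩
  | insert v U hv ih =>
    intro hX
    have hcU : (insert v U).card = U.card + 1 := Finset.card_insert_of_notMem hv
    obtain ⟨h, h1, h2, h3⟩ := ih (by
      intro w hw
      refine lt_of_le_of_lt ?_ (hX w (Finset.mem_insert_of_mem hw))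
      rw [hcU]
      exact Nat.mul_le_mul_left _ (by omega))
    have hex : ∃ t ∈ X v, t ∉ Z.biUnion B ∪ U.biUnion fun w => B (h w) := by
      by_contra hcon
      push Not at hcon
      have hsub : X v ⊆ Z.biUnion B ∪ U.biUnion fun w => B (h w) := fun t ht => hcon t ht
      have c1 : (Z.biUnion B).card ≤ Z.card * K :=
        Finset.card_biUnion_le_card_mul _ _ _ fun b _ => hB b
      have c2 : (U.biUnion fun w => B (h w)).card ≤ U.card * K :=
        Finset.card_biUnion_le_card_mul _ _ _ fun w _ => hB (h w)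
      have c3 := Finset.card_le_card hsub
      have c4 := Finset.card_union_le (Z.biUnion B) (U.biUnion fun w => B (h w))
      have c5 := hX v (Finset.mem_insert_self _ _)
      rw [hcU] at c5
      nlinarith
    obtain ⟨t, htX, ht⟩ := hex
    rw [Finset.mem_union, not_or, Finset.mem_biUnion, Finset.mem_biUnion] at ht
    push Not at ht
    have hne : ∀ w ∈ U, w ≠ v := fun w hw hwv => hv (hwv ▸ hw)
    have hself : Function.update h v t v = t := Function.update_self _ _ _
    have hoth : ∀ w ∈ U, Function.update h v t w = h w := fun w hw =>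
      Function.update_of_ne (hne w hw) _ _
    refine ⟨Function.update h v t, ?_, ?_, ?_⟩
    · intro w hw
      rcases Finset.mem_insert.1 hw with rfl | hw
      · rw [hself]; exact htX
      · rw [hoth w hw]; exact h1 w hw
    · intro w hw z hz
      rcases Finset.mem_insert.1 hw with rfl | hw
      · rw [hself]; exact ht.1 z hz
      · rw [hoth w hw]; exact h2 w hw z hz
    · intro w hw w' hw' hww
      rcases Finset.mem_insert.1 hw with e1 | e1
      · rcases Finset.mem_insert.1 hw' with e2 | e2
        · exact absurd (e1.trans e2.symm) hww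
        · rw [e1, hself, hoth w' e2]; exact ht.2 w' e2
      · rcases Finset.mem_insert.1 hw' with e2 | e2
        · rw [e2, hself, hoth w e1]
          exact fun hcon => ht.2 w e1 (hsymm _ _ hcon)
        · rw [hoth w e1, hoth w' e2]; exact h3 w e1 w' e2 hww

/-- An injection of a small set into `Fin (m + 1)`. -/
theorem asmk_inj {β : Type} (s : Finset β) (m : ℕ) (hs : s.card ≤ m + 1) :
    ∃ f : β → Fin (m + 1), Set.InjOn f s := by
  refine ⟨fun b => if hb : b ∈ s then Fin.castLE hs (s.equivFin ⟨b, hb⟩) else 0, ?_⟩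
  intro a ha b hb hab
  have ha' : a ∈ s := ha
  have hb' : b ∈ s := hb
  simp only [dif_pos ha', dif_pos hb'] at hab
  have h1 := Fin.castLE_injective hs hab
  have h2 := s.equivFin.injective h1
  exact congrArg Subtype.val h2

/-- Correcting the second bits of a labelling. -/
theorem asmk_adjust {β : Type} (P : Finset β) (lab : β → Bool × Bool)
    (X : Bool × Bool → Finset β) (hXP : ∀ l, X l ⊆ P) (hXl : ∀ l, ∀ t ∈ X l, lab t = l)
    (M : Bool × Bool → ℕ)
    (h1 : ∀ b, (P.filter fun y => (lab y).1 = b).card = M (b, true) + M (b, false))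
    (h2 : ∀ l, (P.filter fun y => lab y = l).card ≤ M l + (X l).card) :
    ∃ κ : β → Bool × Bool, (∀ y, κ y ≠ lab y → y ∈ X (lab y)) ∧ (∀ y, (κ y).1 = (lab y).1) ∧
      ∀ l, (P.filter fun y => κ y = l).card = M l := by
  have hA : ∀ l, ∃ A : Finset β, A ⊆ X l ∧
      A.card = (P.filter fun y => lab y = l).card - M l := by
    intro l
    exact Finset.exists_subset_card_eq (by have := h2 l; omega)
  choose A hAX hAc using hA
  refine ⟨fun y => if y ∈ A (lab y) then ((lab y).1, !(lab y).2) else lab y, ?_, ?_, ?_⟩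
  · intro y hy
    by_cases hyA : y ∈ A (lab y)
    · exact hAX _ hyA
    · simp [hyA] at hy
  · intro y
    by_cases hyA : y ∈ A (lab y) <;> simp [hyA]
  · intro l
    have hset : (P.filter fun y => (if y ∈ A (lab y) then ((lab y).1, !(lab y).2) else lab y) = l)
        = ((P.filter fun y => lab y = l) \ A l) ∪ A (l.1, !l.2) := by
      ext y
      simp only [Finset.mem_filter, Finset.mem_union, Finset.mem_sdiff]
      constructor
      · rintro ⟨hyP, hy⟩
        by_cases hyA : y ∈ A (lab y)
        · rw [if_pos hyA] at hy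
          right
          have : (l.1, !l.2) = lab y := by
            rw [← hy]; simp
          rw [this]; exact hyA
        · rw [if_neg hyA] at hy
          left
          exact ⟨⟨hyP, hy⟩, hy ▸ hyA⟩
      · rintro (⟨⟨hyP, hy⟩, hyA⟩ | hyA)
        · refine ⟨hyP, ?_⟩
          rw [if_neg (by rw [hy]; exact hyA)]
          exact hy
        · have hl := hXl _ _ (hAX _ hyA)
          refine ⟨hXP _ (hAX _ hyA), ?_⟩
          rw [if_pos (by rw [hl]; exact hyA), hl]
          simp
    rw [hset, Finset.card_union_of_disjoint, Finset.card_sdiff_of_subset, hAc, hAc]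
    · have hsplit : (P.filter fun y => (lab y).1 = l.1).card =
          (P.filter fun y => lab y = l).card + (P.filter fun y => lab y = (l.1, !l.2)).card := by
        rw [← Finset.card_union_of_disjoint]
        · congr 1
          ext y
          simp only [Finset.mem_filter, Finset.mem_union]
          constructor
          · rintro ⟨hyP, hy⟩
            by_cases h : (lab y).2 = l.2
            · left; exact ⟨hyP, Prod.ext hy h⟩
            · right
              refine ⟨hyP, Prod.ext hy ?_⟩
              revert h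
              cases (lab y).2 <;> cases l.2 <;> simp
          · rintro (⟨hyP, hy⟩ | ⟨hyP, hy⟩)
            · exact ⟨hyP, by rw [hy]⟩
            · exact ⟨hyP, by rw [hy]⟩
        · rw [Finset.disjoint_left]
          intro y hy hy'
          simp only [Finset.mem_filter] at hy hy'
          have h3 := hy.2.symm.trans hy'.2
          have h4 := congrArg Prod.snd h3
          revert h4
          cases l.2 <;> simp
      have hM : M (l.1, true) + M (l.1, false) = M l + M (l.1, !l.2) := by
        obtain ⟨l1, l2⟩ := l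
        cases l2
        · simp [add_comm]
        · simp
      have h3 := h1 l.1
      have h4 := hAc l
      have h5 := Finset.card_le_card (hAX l)
      omega
    · intro y hy
      have := hAX _ hy
      exact Finset.mem_filter.2 ⟨hXP _ this, hXl _ _ this⟩
    · rw [Finset.disjoint_left]
      intro y hy hy'
      have h3 := hXl _ _ (hAX _ hy')
      simp only [Finset.mem_sdiff, Finset.mem_filter] at hy
      have h4 := hy.1.2.symm.trans h3
      have h5 := congrArg Prod.snd h4
      revert h5
      cases l.2 <;> simp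

section Tree

variable {n : ℕ}

theorem asmk_arc_nb {T : PTree n} {u v : Fin n} (h : T.Arc u v) : T.Nb u v := by
  rcases h with ⟨h1, h2, _⟩ | ⟨h1, h2, _⟩
  · exact Or.inl ⟨h1, h2⟩
  · exact Or.inr ⟨h1, h2⟩

theorem asmk_arc_asymm {T : PTree n} {u v : Fin n} (h : T.Arc u v) (h' : T.Arc v u) : False := by
  rcases h with ⟨h1, h2, h3⟩ | ⟨h1, h2, h3⟩ <;> rcases h' with ⟨k1, k2, k3⟩ | ⟨k1, k2, k3⟩
  · have a := T.lt v h1
    have b := T.lt u k1
    rw [h2] at a
    rw [k2] at b
    exact absurd (a.trans b) (lt_irrefl _)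
  · rw [h3] at k3; exact absurd k3 (by simp)
  · rw [h3] at k3; exact absurd k3 (by simp)
  · have a := T.lt u h1
    have b := T.lt v k1
    rw [h2] at a
    rw [k2] at b
    exact absurd (a.trans b) (lt_irrefl _)

theorem asmk_nb_ne {T : PTree n} {u v : Fin n} (h : T.Nb u v) : u ≠ v := by
  rintro rfl
  rcases h with ⟨h1, h2⟩ | ⟨h1, h2⟩
  · have a := T.lt u h1
    rw [h2] at a
    exact absurd a (lt_irrefl _)
  · have a := T.lt u h1
    rw [h2] at a
    exact absurd a (lt_irrefl _)

/-- The neighbours of a vertex (and possibly the junk parent of the root). -/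
def asmkN (T : PTree n) (x : Fin n) : Finset (Fin n) := insert (T.par x) (T.ch x)

theorem asmk_card_N {T : PTree n} {Δ : ℕ} (h : T.Deg Δ) (x : Fin n) :
    (asmkN T x).card ≤ Δ + 1 := by
  have h1 := Finset.card_insert_le (T.par x) (T.ch x)
  have h2 : (T.ch x).card ≤ Δ := h x
  unfold asmkN
  omega

theorem asmk_mem_N {T : PTree n} {x y : Fin n} (h : T.Nb x y) : y ∈ asmkN T x := by
  rcases h with ⟨h1, h2⟩ | ⟨h1, h2⟩
  · exact Finset.mem_insert_of_mem (tb_mem_ch.2 ⟨h1, h2⟩)
  · rw [← h2]; exact Finset.mem_insert_self _ _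

end Tree

/-- The number of exceptional vertices. -/
theorem asmk_exc {V : Type} [Fintype V] {D : V → V → Prop} {W : Bool × Bool → Finset V} {δ : ℝ}
    (h : Typ D W δ) : ((univ.filter fun v => Exc W v).card : ℝ) ≤
      2 * δ * (Fintype.card V : ℝ) := by
  have h1 : (univ.filter fun v => Exc W v) = univ \ (univ.biUnion W) := by
    ext v
    simp [Exc]
  have h2 : ((univ : Finset (Bool × Bool)).biUnion W).card = ∑ l, (W l).card :=
    Finset.card_biUnion fun a _ b _ hab => h.disj a b hab
  have h3 : (univ.filter fun v => Exc W v).card + ((univ : Finset (Bool × Bool)).biUnion W).card =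
      Fintype.card V := by
    rw [h1, ← Finset.card_univ]
    exact Finset.card_sdiff_add_card_eq_card (Finset.subset_univ _)
  rw [h2, Fintype.sum_prod_type, Fintype.sum_bool, Fintype.sum_bool, Fintype.sum_bool] at h3
  have h4 := h.inB true
  have h5 := h.inB false
  have h6 : (((univ.filter fun v => Exc W v).card : ℕ) : ℝ) + ((((W (true, true)).card : ℕ) : ℝ) +
      (((W (true, false)).card : ℕ) : ℝ) + ((((W (false, true)).card : ℕ) : ℝ) +
      (((W (false, false)).card : ℕ) : ℝ))) = (Fintype.card V : ℝ) := by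
    exact_mod_cast h3
  nlinarith

/-- Module ASMK: the final assembly for trees with many sinks. -/
theorem x3_asmk (hMet : StMet) : StAsmK := by
  intro Δ σ ζ ρ hσ hζ hρ
  obtain ⟨η, θ, N, hη, hθ, hM⟩ := hMet Δ ζ ρ hζ hρ (Bool × Bool)
  obtain ⟨K, hK⟩ : ∃ K : ℕ, K = (Δ + 2) ^ 3 := ⟨_, rfl⟩
  have hK1 : 1 ≤ K := by rw [hK]; exact Nat.one_le_pow _ _ (by omega)
  have hKr : (1 : ℝ) ≤ (K : ℝ) := by exact_mod_cast hK1
  obtain ⟨δ, hδ0, hδη, hδθ, hδσ⟩ : ∃ δ : ℝ, 0 < δ ∧ δ ≤ η ∧ 4 * δ ≤ θ ∧
      12 * (K : ℝ) * δ ≤ σ := by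
    refine ⟨min η (min (θ / 4) (σ / (12 * K))), ?_, ?_, ?_, ?_⟩
    · have : 0 < σ / (12 * (K : ℝ)) := by positivity
      exact lt_min hη (lt_min (by positivity) this)
    · exact min_le_left _ _
    · have : min η (min (θ / 4) (σ / (12 * (K : ℝ)))) ≤ θ / 4 :=
        (min_le_right _ _).trans (min_le_left _ _)
      linarith
    · have h1 : min η (min (θ / 4) (σ / (12 * (K : ℝ)))) ≤ σ / (12 * K) :=
        (min_le_right _ _).trans (min_le_right _ _)
      have h2 : 0 < 12 * (K : ℝ) := by positivity
      calc 12 * (K : ℝ) * min η (min (θ / 4) (σ / (12 * (K : ℝ))))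
          ≤ 12 * (K : ℝ) * (σ / (12 * K)) := mul_le_mul_of_nonneg_left h1 h2.le
        _ = σ := by field_simp
  refine ⟨δ, hδ0, max N 1, ?_⟩
  intro n hn V _ hV D W hTyp hWc T hT k k' k'' hkk S lv hSt hOpt Z lab ψ hZc hZs hZS hψ hrob hZl
    C hCS hZC hCc α hα hctx hcnt hj
  have hnN : N ≤ n := (le_max_left _ _).trans hn
  have hn1 : 1 ≤ n := (le_max_right _ _).trans hn
  have hnr : (1 : ℝ) ≤ (n : ℝ) := by exact_mod_cast hn1
  have hδn : 0 < δ * (n : ℝ) := by positivity
  have hKδn : 12 * (K : ℝ) * (δ * (n : ℝ)) ≤ σ * (n : ℝ) := by nlinarith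
  -- the exceptional vertices
  obtain ⟨j, hjC, hjeq⟩ := hj
  obtain ⟨C1, hC1, hC1c⟩ := Finset.exists_subset_card_eq hjC
  obtain ⟨E, hE⟩ : ∃ E : Finset V, E = univ.filter fun v => Exc W v ∧ v ∉ C ∧
    (∀ z ∈ Z, ψ z ≠ v) := ⟨_, rfl⟩
  have hmE : ∀ v, v ∈ E ↔ Exc W v ∧ v ∉ C ∧ ∀ z ∈ Z, ψ z ≠ v := by
    intro v; rw [hE, Finset.mem_filter]; simp
  have hEc : (E.card : ℝ) ≤ 2 * (δ * (n : ℝ)) := by
    have h1 := asmk_exc hTyp
    rw [hV] at h1
    have h2 : E.card ≤ (univ.filter fun v => Exc W v).card := by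
      apply Finset.card_le_card
      intro v hv
      exact Finset.mem_filter.2 ⟨Finset.mem_univ _, ((hmE v).1 hv).1⟩
    have h3 : (E.card : ℝ) ≤ ((univ.filter fun v => Exc W v).card : ℝ) := by exact_mod_cast h2
    linarith
  have hEC : Disjoint E C := by
    rw [Finset.disjoint_left]
    intro v hv
    exact ((hmE v).1 hv).2.1
  obtain ⟨U, hU⟩ : ∃ U : Finset V, U = E ∪ C := ⟨_, rfl⟩
  have hUc : U.card = E.card + C.card := by rw [hU]; exact Finset.card_union_of_disjoint hEC
  have hUr : (U.card : ℝ) ≤ 3 * (δ * (n : ℝ)) := by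
    rw [hUc]; push_cast; linarith
  have hUψ : ∀ v ∈ U, ∀ z ∈ Z, ψ z ≠ v := by
    intro v hv z hz
    rw [hU, Finset.mem_union] at hv
    rcases hv with hv | hv
    · exact ((hmE v).1 hv).2.2 z hz
    · intro h; exact hZC z hz (h ▸ hv)
  -- the contexts
  obtain ⟨kt, kf, hkt, hkf, hktk, hkfk⟩ : ∃ kt kf : Bool × Bool, kt.2 = true ∧ kf.2 = false ∧
      (kt = k ∨ kt = k') ∧ (kf = k ∨ kf = k') := by
    cases h1 : k.2
    · refine ⟨k', k, ?_, h1, Or.inr rfl, Or.inl rfl⟩
      cases h2 : k'.2
      · exact absurd (h1.trans h2.symm) hkk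
      · rfl
    · refine ⟨k, k', h1, ?_, Or.inl rfl, Or.inr rfl⟩
      cases h2 : k'.2
      · rfl
      · exact absurd (h1.trans h2.symm) hkk
  obtain ⟨c, hc⟩ : ∃ c : V → Bool × Bool,
    c = fun v => if v ∈ C then (if v ∈ C1 then kt else kf) else α v := ⟨_, rfl⟩
  have hcC : ∀ v ∈ C, c v = k ∨ c v = k' := by
    intro v hv
    rw [hc]
    simp only [if_pos hv]
    by_cases h1 : v ∈ C1
    · rw [if_pos h1]; exact hktk
    · rw [if_neg h1]; exact hkfk
  have hcE : ∀ v ∈ E, c v = α v := by
    intro v hv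
    rw [hc]
    simp only [if_neg ((hmE v).1 hv).2.1]
  -- the hosts
  obtain ⟨h, hh1, hh2, hh3⟩ := asmk_greedy (fun v : Fin n => T.ball 3 v)
    (fun a b hab => T.mem_ball_comm.1 hab) K (fun b => by rw [hK]; exact T.card_ball hT 3 b) Z
    (fun v : V => T.ctx Z lab (c v)) (fun _ => (⟨0, hn1⟩ : Fin n)) U (by
      intro v _
      have h1 := hctx (c v)
      have h2 : ((K * (Z.card + U.card) : ℕ) : ℝ) < ((T.ctx Z lab (c v)).card : ℝ) := by
        push_cast
        have h3 : (K : ℝ) * ((Z.card : ℝ) + (U.card : ℝ)) ≤ (K : ℝ) * (4 * (δ * (n : ℝ))) :=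
          mul_le_mul_of_nonneg_left (by linarith) (by positivity)
        have h4 : 0 < (K : ℝ) * (δ * (n : ℝ)) := by positivity
        nlinarith
      exact_mod_cast h2)
  have hctxm : ∀ l t, t ∈ T.ctx Z lab l ↔ T.Snk t ∧ t ∉ Z ∧ lab t = l.swap ∧
      ∀ y, T.Arc y t → y ∉ Z ∧ lab y = l := by
    intro l t
    unfold PTree.ctx
    rw [Finset.mem_filter]
    simp
  have hhs : ∀ v ∈ U, T.Snk (h v) ∧ h v ∉ Z ∧ lab (h v) = (c v).swap ∧
      ∀ y, T.Arc y (h v) → y ∉ Z ∧ lab y = c v := fun v hv => (hctxm _ _).1 (hh1 v hv)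
  have hhinj : Set.InjOn h U := by
    intro v hv w hw hvw
    by_contra hne
    apply hh3 v hv w hw hne
    rw [hvw]
    exact T.self_mem_ball 3 _
  obtain ⟨Sp, hSp⟩ : ∃ Sp : Finset (Fin n), Sp = Z ∪ U.image h := ⟨_, rfl⟩
  have hmSp : ∀ x, x ∈ Sp ↔ x ∈ Z ∨ ∃ v ∈ U, h v = x := by
    intro x; rw [hSp, Finset.mem_union, Finset.mem_image]
  have hdisj : Disjoint Z (U.image h) := by
    rw [Finset.disjoint_left]
    intro x hx hx'
    obtain ⟨v, hv, rfl⟩ := Finset.mem_image.1 hx'
    exact (hhs v hv).2.1 hx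
  have hSpc : Sp.card = Z.card + U.card := by
    rw [hSp, Finset.card_union_of_disjoint hdisj, Finset.card_image_of_injOn hhinj]
  have hSpr : (Sp.card : ℝ) ≤ 4 * (δ * (n : ℝ)) := by
    rw [hSpc]; push_cast; linarith
  obtain ⟨ψ', hψZ, hψU⟩ : ∃ ψ' : Fin n → V, (∀ z ∈ Z, ψ' z = ψ z) ∧ ∀ v ∈ U, ψ' (h v) = v := by
    refine ⟨fun x => if x ∈ Z then ψ x else if hx : ∃ v ∈ U, h v = x then hx.choose else ψ x,
      ?_, ?_⟩
    · intro z hz; simp [hz]
    · intro v hv
      have h1 : ∃ w ∈ U, h w = h v := ⟨v, hv, rfl⟩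
      have h2 := (hhs v hv).2.1
      simp only [if_neg h2, dif_pos h1]
      exact hhinj h1.choose_spec.1 hv h1.choose_spec.2
  have himg : ∀ v, v ∈ Sp.image ψ' ↔ (∃ z ∈ Z, ψ z = v) ∨ v ∈ U := by
    intro v
    rw [Finset.mem_image]
    constructor
    · rintro ⟨x, hx, hxv⟩
      rcases (hmSp x).1 hx with hx | ⟨w, hw, rfl⟩
      · left; exact ⟨x, hx, by rw [← hψZ x hx]; exact hxv⟩
      · right; rw [← hxv, hψU w hw]; exact hw
    · rintro (⟨z, hz, hzv⟩ | hv)
      · exact ⟨z, (hmSp z).2 (Or.inl hz), by rw [hψZ z hz]; exact hzv⟩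
      · exact ⟨h v, (hmSp _).2 (Or.inr ⟨v, hv, rfl⟩), hψU v hv⟩
  have hψinj : Set.InjOn ψ' Sp := by
    intro x hx y hy hxy
    rcases (hmSp x).1 hx with hx | ⟨v, hv, rfl⟩ <;> rcases (hmSp y).1 hy with hy | ⟨w, hw, rfl⟩
    · rw [hψZ x hx, hψZ y hy] at hxy
      exact hψ hx hy hxy
    · rw [hψZ x hx, hψU w hw] at hxy
      exact absurd hxy (hUψ w hw x hx)
    · rw [hψZ y hy, hψU v hv] at hxy
      exact absurd hxy.symm (hUψ v hv y hy)
    · rw [hψU v hv, hψU w hw] at hxy
      rw [hxy]
  have hsep : ∀ a ∈ Sp, ∀ b ∈ Sp, a ≠ b → b ∉ T.ball 3 a := by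
    intro a ha b hb hab
    rcases (hmSp a).1 ha with ha | ⟨v, hv, rfl⟩ <;> rcases (hmSp b).1 hb with hb | ⟨w, hw, rfl⟩
    · exact hZs a ha b hb hab
    · exact hh2 w hw a ha
    · exact fun hcon => hh2 v hv b hb (T.mem_ball_comm.1 hcon)
    · exact hh3 w hw v hv (fun hvw => hab (by rw [hvw]))
  -- neighbours of special vertices
  have hnbSp : ∀ x ∈ Sp, ∀ y, T.Nb x y → y ∉ Sp := by
    intro x hx y hxy hy
    exact hsep x hx y hy (asmk_nb_ne hxy) (T.ball_mono (by omega) x hxy.mem_ball)
  have hnbU : ∀ x ∈ Sp, ∀ x' ∈ Sp, ∀ y, T.Nb x y → T.Nb x' y → x = x' := by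
    intro x hx x' hx' y h1 h2
    by_contra hne
    apply hsep x hx x' hx' hne
    exact T.ball_mono (by omega) x (T.ball_trans (j := 1) (k := 1) h1.mem_ball h2.symm.mem_ball)
  -- the image and the classes
  obtain ⟨M, hMdef⟩ : ∃ M : Bool × Bool → ℕ, M = fun l => (W l \ Sp.image ψ').card := ⟨_, rfl⟩
  have himgc : (Sp.image ψ').card = Sp.card := Finset.card_image_of_injOn hψinj
  have hnotW : ∀ v, (∀ l, v ∉ W l) → v ∈ Sp.image ψ' := by
    intro v hv
    rw [himg]
    by_cases h1 : v ∈ C
    · right; rw [hU]; exact Finset.mem_union_right _ h1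
    · by_cases h2 : ∃ z ∈ Z, ψ z = v
      · left; exact h2
      · right
        rw [hU]
        push Not at h2
        exact Finset.mem_union_left _ ((hmE v).2 ⟨hv, h1, h2⟩)
  have htot : M (true, true) + M (true, false) + (M (false, true) + M (false, false)) +
      Sp.card = n := by
    have h1 : univ \ Sp.image ψ' = (univ : Finset (Bool × Bool)).biUnion fun l =>
        W l \ Sp.image ψ' := by
      ext v
      simp only [Finset.mem_sdiff, Finset.mem_univ, true_and, Finset.mem_biUnion]
      constructor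
      · intro hv
        by_contra hcon
        push Not at hcon
        exact hv (hnotW v fun l hl => hv (hcon l hl))
      · rintro ⟨l, _, hl⟩; exact hl
    have h2 : ((univ : Finset (Bool × Bool)).biUnion fun l => W l \ Sp.image ψ').card =
        ∑ l, M l := by
      rw [hMdef]
      apply Finset.card_biUnion
      intro a _ b _ hab
      exact (hTyp.disj a b hab).mono Finset.sdiff_subset Finset.sdiff_subset
    have h3 : (univ \ Sp.image ψ').card + (Sp.image ψ').card = Fintype.card V := by
      rw [← Finset.card_univ]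
      exact Finset.card_sdiff_add_card_eq_card (Finset.subset_univ _)
    rw [h1, h2, himgc, hV, Fintype.sum_prod_type, Fintype.sum_bool, Fintype.sum_bool,
      Fintype.sum_bool] at h3
    exact h3
  obtain ⟨P, hP⟩ : ∃ P : Finset (Fin n), P = univ \ Sp := ⟨_, rfl⟩
  have hmP : ∀ y, y ∈ P ↔ y ∉ Sp := by intro y; rw [hP]; simp
  have hPc : P.card + Sp.card = n := by
    rw [hP]
    have := Finset.card_sdiff_add_card_eq_card (Finset.subset_univ Sp)
    rwa [Finset.card_univ, Fintype.card_fin] at this
  -- first bits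
  have hfirstT : (P.filter fun y => (lab y).1 = true).card = M (true, true) + M (true, false) := by
    have e1 : (univ.filter fun v => v ∉ Z ∧ (lab v).1 = true).card =
        (P.filter fun y => (lab y).1 = true).card +
          ((U.image h).filter fun y => (lab y).1 = true).card := by
      rw [← Finset.card_union_of_disjoint]
      · congr 1
        ext y
        simp only [Finset.mem_filter, Finset.mem_union, Finset.mem_univ, true_and, hmP]
        constructor
        · rintro ⟨hy, hb⟩
          by_cases h1 : y ∈ U.image h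
          · right; exact ⟨h1, hb⟩
          · left
            refine ⟨?_, hb⟩
            rw [hSp, Finset.mem_union, not_or]
            exact ⟨hy, h1⟩
        · rintro (⟨hy, hb⟩ | ⟨hy, hb⟩)
          · rw [hSp, Finset.mem_union, not_or] at hy
            exact ⟨hy.1, hb⟩
          · exact ⟨fun hz => Finset.disjoint_left.1 hdisj hz hy, hb⟩
      · rw [Finset.disjoint_left]
        intro y hy hy'
        rw [Finset.mem_filter, hmP] at hy
        apply hy.1
        rw [hSp]
        exact Finset.mem_union_right _ (Finset.mem_filter.1 hy').1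
    have e2 : ((U.image h).filter fun y => (lab y).1 = true).card =
        (E.filter fun v => (α v).2 = true).card + C1.card := by
      have h1 : (U.image h).filter (fun y => (lab y).1 = true) =
          (E.filter (fun v => (α v).2 = true) ∪ C1).image h := by
        ext y
        simp only [Finset.mem_filter, Finset.mem_image, Finset.mem_union]
        constructor
        · rintro ⟨⟨v, hv, rfl⟩, hb⟩
          refine ⟨v, ?_, rfl⟩
          rw [(hhs v hv).2.2.1, Prod.fst_swap] at hb
          rw [hU, Finset.mem_union] at hv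
          rcases hv with hv | hv
          · left; refine ⟨hv, ?_⟩; rw [← hcE v hv]; exact hb
          · right
            by_contra hcon
            rw [hc] at hb
            simp only [if_pos hv, if_neg hcon] at hb
            rw [hkf] at hb
            exact absurd hb (by simp)
        · rintro ⟨v, hv | hv, rfl⟩
          · have hvU : v ∈ U := by rw [hU]; exact Finset.mem_union_left _ hv.1
            refine ⟨⟨v, hvU, rfl⟩, ?_⟩
            rw [(hhs v hvU).2.2.1, Prod.fst_swap, hcE v hv.1]
            exact hv.2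
          · have hvU : v ∈ U := by rw [hU]; exact Finset.mem_union_right _ (hC1 hv)
            refine ⟨⟨v, hvU, rfl⟩, ?_⟩
            rw [(hhs v hvU).2.2.1, Prod.fst_swap, hc]
            simp only [if_pos (hC1 hv), if_pos hv]
            exact hkt
      rw [h1, Finset.card_image_of_injOn, Finset.card_union_of_disjoint]
      · rw [Finset.disjoint_left]
        intro v hv hv'
        exact Finset.disjoint_left.1 hEC (Finset.mem_filter.1 hv).1 (hC1 hv')
      · intro v hv w hw hvw
        have h2 : ∀ v, v ∈ E.filter (fun v => (α v).2 = true) ∪ C1 → v ∈ U := by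
          intro v hv
          rw [hU, Finset.mem_union]
          rcases Finset.mem_union.1 hv with hv | hv
          · left; exact (Finset.mem_filter.1 hv).1
          · right; exact hC1 hv
        exact hhinj (h2 v hv) (h2 w hw) hvw
    have e3 : (univ.filter fun v => Exc W v ∧ v ∉ C ∧ (∀ z ∈ Z, ψ z ≠ v) ∧ (α v).2 = true) =
        E.filter fun v => (α v).2 = true := by
      ext v
      simp only [Finset.mem_filter, Finset.mem_univ, true_and, hmE]
      tauto
    have e4 : (univ.filter fun v => (v ∈ W (true, true) ∨ v ∈ W (true, false)) ∧ v ∉ C ∧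
        ∀ z ∈ Z, ψ z ≠ v).card = M (true, true) + M (true, false) := by
      rw [hMdef]
      simp only
      rw [← Finset.card_union_of_disjoint]
      · congr 1
        ext v
        simp only [Finset.mem_filter, Finset.mem_univ, true_and, Finset.mem_union,
          Finset.mem_sdiff]
        have h1 : ∀ l, v ∈ W l → (v ∉ Sp.image ψ' ↔ v ∉ C ∧ ∀ z ∈ Z, ψ z ≠ v) := by
          intro l hl
          rw [himg, not_or, hU, Finset.mem_union, not_or]
          push Not
          constructor
          · rintro ⟨a, b, b'⟩; exact ⟨b', a⟩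
          · rintro ⟨a, b⟩
            exact ⟨b, fun hcon => ((hmE v).1 hcon).1 l hl, a⟩
        constructor
        · rintro ⟨hv | hv, hv'⟩
          · left; exact ⟨hv, (h1 _ hv).2 hv'⟩
          · right; exact ⟨hv, (h1 _ hv).2 hv'⟩
        · rintro (⟨hv, hv'⟩ | ⟨hv, hv'⟩)
          · exact ⟨Or.inl hv, (h1 _ hv).1 hv'⟩
          · exact ⟨Or.inr hv, (h1 _ hv).1 hv'⟩
      · exact (hTyp.disj _ _ (by simp)).mono Finset.sdiff_subset Finset.sdiff_subset
    rw [e1, e2, e3, e4] at hjeq
    omega
  have hfirst : ∀ b, (P.filter fun y => (lab y).1 = b).card = M (b, true) + M (b, false) := by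
    intro b
    cases b
    · have h1 : (P.filter fun y => (lab y).1 = true).card +
          (P.filter fun y => (lab y).1 = false).card = P.card := by
        have h2 : (P.filter fun y => (lab y).1 = false) =
            P.filter fun y => ¬ (lab y).1 = true := by
          apply Finset.filter_congr
          intro y _
          simp
        rw [h2]
        exact Finset.card_filter_add_card_filter_not _
      omega
    · exact hfirstT
  -- second bits
  have hXcard : ∀ l, (P.filter fun y => lab y = l).card ≤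
      M l + ((T.ctx Z lab l.swap) \ Sp).card := by
    intro l
    have a1 : (P.filter fun y => lab y = l).card ≤
        (univ.filter fun v => v ∉ Z ∧ lab v = l).card := by
      apply Finset.card_le_card
      intro y hy
      rw [Finset.mem_filter, hmP] at hy
      refine Finset.mem_filter.2 ⟨Finset.mem_univ _, fun hz => hy.1 ?_, hy.2⟩
      exact (hmSp y).2 (Or.inl hz)
    have a2 : (W l).card ≤ M l + Sp.card := by
      rw [hMdef, ← himgc]
      simp only
      have := Finset.card_le_card_sdiff_add_card (s := W l) (t := Sp.image ψ')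
      omega
    have a3 : (T.ctx Z lab l.swap).card ≤ ((T.ctx Z lab l.swap) \ Sp).card + Sp.card :=
      Finset.card_le_card_sdiff_add_card
    have a4 := hcnt l
    have a5 := hctx l.swap
    have a6 := (abs_le.1 a4).2
    have a1r : ((P.filter fun y => lab y = l).card : ℝ) ≤
        ((univ.filter fun v => v ∉ Z ∧ lab v = l).card : ℝ) := by exact_mod_cast a1
    have a2r : ((W l).card : ℝ) ≤ (M l : ℝ) + (Sp.card : ℝ) := by exact_mod_cast a2
    have a3r : ((T.ctx Z lab l.swap).card : ℝ) ≤
        (((T.ctx Z lab l.swap) \ Sp).card : ℝ) + (Sp.card : ℝ) := by exact_mod_cast a3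
    have a7 : 12 * (δ * (n : ℝ)) ≤ 12 * (K : ℝ) * (δ * (n : ℝ)) := by nlinarith
    have : ((P.filter fun y => lab y = l).card : ℝ) ≤
        ((M l + ((T.ctx Z lab l.swap) \ Sp).card : ℕ) : ℝ) := by
      push_cast
      linarith
    exact_mod_cast this
  obtain ⟨κ, hκ1, hκ2, hκ3⟩ := asmk_adjust P lab (fun l => (T.ctx Z lab l.swap) \ Sp)
    (fun l t ht => (hmP t).2 (Finset.mem_sdiff.1 ht).2)
    (fun l t ht => by
      have := ((hctxm _ _).1 (Finset.mem_sdiff.1 ht).1).2.2.1
      rw [this, Prod.swap_swap]) M hfirst hXcard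
  have hκs : ∀ y, κ y ≠ lab y → T.Snk y ∧ ∀ x, T.Arc x y → x ∉ Z := by
    intro y hy
    have h1 := (hctxm _ _).1 (Finset.mem_sdiff.1 (hκ1 y hy)).1
    exact ⟨h1.1, fun x hx => (h1.2.2.2 x hx).1⟩
  have hκout : ∀ x y, T.Arc x y → κ x = lab x := by
    intro x y hxy
    by_contra hne
    exact (hκs x hne).1 y hxy
  -- leaves
  obtain ⟨Lf, hLf⟩ : ∃ Lf : Finset (Fin n), Lf = univ.filter fun y =>
    ∃ x ∈ Z ∪ C.image h, T.Arc y x ∧ lab y = k := ⟨_, rfl⟩
  have hmLf : ∀ y, y ∈ Lf ↔ ∃ x ∈ Z ∪ C.image h, T.Arc y x ∧ lab y = k := by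
    intro y; rw [hLf, Finset.mem_filter]; simp
  have hCU : ∀ v ∈ C, v ∈ U := fun v hv => by rw [hU]; exact Finset.mem_union_right _ hv
  have hZCSp : ∀ x ∈ Z ∪ C.image h, x ∈ Sp ∧ ψ' x ∈ S := by
    intro x hx
    rw [Finset.mem_union, Finset.mem_image] at hx
    rcases hx with hx | ⟨v, hv, rfl⟩
    · refine ⟨(hmSp x).2 (Or.inl hx), ?_⟩
      rw [hψZ x hx]; exact hZS x hx
    · refine ⟨(hmSp _).2 (Or.inr ⟨v, hCU v hv, rfl⟩), ?_⟩
      rw [hψU v (hCU v hv)]; exact hCS hv
  obtain ⟨sx, hsx⟩ : ∃ sx : Fin n → Fin n, ∀ y ∈ Lf,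
      sx y ∈ Z ∪ C.image h ∧ T.Arc y (sx y) ∧ lab y = k := by
    refine ⟨fun y => if hy : ∃ x ∈ Z ∪ C.image h, T.Arc y x ∧ lab y = k then hy.choose else y,
      ?_⟩
    intro y hy
    have h1 := (hmLf y).1 hy
    simp only [dif_pos h1]
    exact h1.choose_spec
  have hsxu : ∀ y ∈ Lf, ∀ x ∈ Sp, T.Nb x y → sx y = x := by
    intro y hy x hx hxy
    exact hnbU (sx y) (hZCSp _ (hsx y hy).1).1 x hx y (asmk_arc_nb (hsx y hy).2.1).symm hxy
  have hidx : ∀ x : Fin n, ∃ f : Fin n → Fin (Δ + 1), Set.InjOn f (asmkN T x) := fun x =>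
    asmk_inj _ _ (asmk_card_N hT x)
  choose idx hidx using hidx
  have hLfSp : ∀ y ∈ Lf, y ∉ Sp := by
    intro y hy
    exact hnbSp (sx y) (hZCSp _ (hsx y hy).1).1 y (asmk_arc_nb (hsx y hy).2.1).symm
  have hκLf : ∀ y ∈ Lf, κ y = k := by
    intro y hy
    rw [hκout y _ (hsx y hy).2.1]
    exact (hsx y hy).2.2
  apply hM n hnN T hT V hV D W hTyp.disj hWc (fun k l => k.2 = l.1) ?_ ?_ Sp ψ' κ Lf
    (fun y => lv (ψ' (sx y)) (idx (sx y) y)) ?_ ?_
  · intro a b hab w hw
    have h1 := hTyp.out a b hab w hw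
    rw [hV] at h1
    exact h1.trans (mul_le_mul_of_nonneg_right hδη (by positivity))
  · intro a b hab w hw
    have h1 := hTyp.inn a b hab w hw
    rw [hV] at h1
    exact h1.trans (mul_le_mul_of_nonneg_right hδη (by positivity))
  · calc (Sp.card : ℝ) ≤ 4 * (δ * (n : ℝ)) := hSpr
      _ = (4 * δ) * (n : ℝ) := by ring
      _ ≤ θ * (n : ℝ) := mul_le_mul_of_nonneg_right hδθ (by positivity)
  · refine
      { sep := hsep
        inj := hψinj
        all := hnotW
        arc := ?_
        linj := ?_
        leaf := ?_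
        outL := ?_
        inL := ?_
        outF := ?_
        inF := ?_
        count := ?_ }
    · intro x y hxy hx hy
      show (κ x).2 = (κ y).1
      rw [hκout x y hxy, hκ2 y]
      apply hrob x y hxy
      · exact fun hz => hx ((hmSp x).2 (Or.inl hz))
      · exact fun hz => hy ((hmSp y).2 (Or.inl hz))
    · intro y hy y' hy' hyy
      have hy1 : y ∈ Lf := hy
      have hy1' : y' ∈ Lf := hy'
      have h1 := hSt.inj _ (hZCSp _ (hsx y hy1).1).2 _ (hZCSp _ (hsx y' hy1').1).2 _ _ hyy
      have h2 : sx y = sx y' := hψinj (hZCSp _ (hsx y hy1).1).1 (hZCSp _ (hsx y' hy1').1).1 h1.1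
      have h3 := h1.2
      rw [← h2] at h3
      apply hidx (sx y) _ _ h3
      · exact asmk_mem_N (asmk_arc_nb (hsx y hy1).2.1).symm
      · have h4 := (hsx y' hy1').2.1
        rw [← h2] at h4
        exact asmk_mem_N (asmk_arc_nb h4).symm
    · intro y hy
      have h1 := hSt.adj _ (hZCSp _ (hsx y hy).1).2 (idx (sx y) y)
      refine ⟨hLfSp y hy, ?_, ?_⟩
      · rw [hκLf y hy]; exact h1.1
      · rw [himg, not_or]
        constructor
        · rintro ⟨z, hz, hzv⟩
          apply h1.2.2
          rw [← hzv]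
          exact hZS z hz
        · intro hcon
          rw [hU, Finset.mem_union] at hcon
          rcases hcon with hcon | hcon
          · exact ((hmE _).1 hcon).1 k h1.1
          · exact h1.2.2 (hCS hcon)
    · intro x hx y hy hxy
      have h1 := hsxu y hy x hx (asmk_arc_nb hxy)
      have h2 := (hsx y hy).2.1
      rw [h1] at h2
      exact absurd (asmk_arc_asymm hxy h2) (by simp)
    · intro x hx y hy hxy
      have h1 := hsxu y hy x hx (asmk_arc_nb hxy).symm
      have h2 := (hSt.adj _ (hZCSp _ (hsx y hy).1).2 (idx (sx y) y)).2.1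
      unfold Adj at h2
      rw [if_neg (by simp)] at h2
      rw [h1] at h2 ⊢
      exact h2
    · intro x hx y hy hxy
      rcases (hmSp x).1 hx with hxZ | ⟨v, hv, rfl⟩
      · have h1 : κ y = lab y := by
          by_contra hne
          exact (hκs y hne).2 x hxy hxZ
        have h2 := (hOpt _ (hZS x hxZ)).2
        unfold Opt at h2
        rw [h1, (hZl x hxZ).2 y hxy, hψZ x hxZ, ← hV]
        exact h2
      · exact absurd hxy ((hhs v hv).1 y)
    · intro x hx y hy hxy
      rw [hκout y x hxy]
      rcases (hmSp x).1 hx with hxZ | ⟨v, hv, rfl⟩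
      · rcases (hZl x hxZ).1 y hxy with h1 | h1
        · exact absurd ((hmLf y).2 ⟨x, Finset.mem_union_left _ hxZ, hxy, h1⟩) hy
        · have h2 := (hOpt _ (hZS x hxZ)).1
          unfold Opt at h2
          rw [h1, hψZ x hxZ, ← hV]
          exact h2
      · rw [((hhs v hv).2.2.2 y hxy).2, hψU v hv, ← hV]
        have hv' := hv
        rw [hU, Finset.mem_union] at hv'
        rcases hv' with hvE | hvC
        · rw [hcE v hvE]
          exact hα v ((hmE v).1 hvE).1
        · rcases hcC v hvC with h1 | h1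
          · exfalso
            apply hy
            refine (hmLf y).2 ⟨h v, Finset.mem_union_right _ (Finset.mem_image_of_mem h hvC), hxy,
              ?_⟩
            rw [((hhs v hv).2.2.2 y hxy).2, h1]
          · rw [h1]
            exact (hOpt v (hCS hvC)).1
    · intro l
      have h1 := hκ3 l
      rw [hMdef] at h1
      simp only at h1
      rw [← h1]
      congr 1
      ext y
      simp only [Finset.mem_filter, Finset.mem_univ, true_and, hmP]

end

end OT
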